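import Mathlib

set_option autoImplicit false

/-!
# F-pure regularity and excellent rings: definitions
-/

universe u

namespace Pool.Agent.P8H57.FPR

open TensorProduct IsLocalRing

/-- `F^e_* R`: the additive group of `R`, on which `r : R` acts as multiplication by `r ^ (p ^ e)`. -/
def FPush (R : Type u) (_p _e : ℕ) : Type u := R

namespace FPush

variable (R : Type u) [CommRing R] (p e : ℕ)

instance : AddCommGroup (FPush R p e) := inferInstanceAs (AddCommGroup R)

/-- The element `F^e_* s` of `F^e_* R` given by the element `s` of `R`. -/
def of : R ≃+ FPush R p e := AddEquiv.refl R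

variable [Fact p.Prime] [CharP R p]

/-- `r • F^e_* s = F^e_* (r ^ (p ^ e) * s)`. -/
instance : Module R (FPush R p e) where
  smul r s := of R p e (r ^ p ^ e * (of R p e).symm s)
  one_smul s := by
    change of R p e (1 ^ p ^ e * (of R p e).symm s) = s
    rw [one_pow, one_mul, AddEquiv.apply_symm_apply]
  mul_smul a b s := by
    change of R p e ((a * b) ^ p ^ e * (of R p e).symm s) =
      of R p e (a ^ p ^ e * (of R p e).symm (of R p e (b ^ p ^ e * (of R p e).symm s)))
    rw [AddEquiv.symm_apply_apply, mul_pow, mul_assoc]
  smul_zero a := by
    change of R p e (a ^ p ^ e * (of R p e).symm 0) = 0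
    rw [map_zero, mul_zero, map_zero]
  smul_add a s t := by
    change of R p e (a ^ p ^ e * (of R p e).symm (s + t)) =
      of R p e (a ^ p ^ e * (of R p e).symm s) + of R p e (a ^ p ^ e * (of R p e).symm t)
    rw [map_add, mul_add, map_add]
  add_smul a b s := by
    change of R p e ((a + b) ^ p ^ e * (of R p e).symm s) =
      of R p e (a ^ p ^ e * (of R p e).symm s) + of R p e (b ^ p ^ e * (of R p e).symm s)
    rw [add_pow_char_pow, add_mul, map_add]
  zero_smul s := by
    change of R p e (0 ^ p ^ e * (of R p e).symm s) = 0
    rw [zero_pow (pow_ne_zero e (Nat.Prime.ne_zero Fact.out)), zero_mul, map_zero]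

theorem smul_of (r s : R) : r • of R p e s = of R p e (r ^ p ^ e * s) := rfl

end FPush

/-- The map `λ^e_c : R → F^e_* R`, `r ↦ F^e_* (c r ^ (p ^ e))`. -/
def lam (R : Type u) [CommRing R] (p e : ℕ) [Fact p.Prime] [CharP R p] (c : R) :
    R →ₗ[R] FPush R p e where
  toFun r := FPush.of R p e (c * r ^ p ^ e)
  map_add' r s := by rw [add_pow_char_pow, mul_add, map_add]
  map_smul' r s := by
    rw [smul_eq_mul, mul_pow, RingHom.id_apply, FPush.smul_of]
    congr 1
    ring

/-- A homomorphism `f : M → N` of `R`-modules is pure if `M ⊗ P → N ⊗ P` is injective for every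
`R`-module `P`. -/
def IsPure {R : Type u} [CommRing R] {M N : Type u} [AddCommGroup M] [AddCommGroup N] [Module R M]
    [Module R N] (f : M →ₗ[R] N) : Prop :=
  ∀ (P : Type u) [AddCommGroup P] [Module R P], Function.Injective (f.rTensor P)

/-- `R` is F-pure regular: for every `c` which lies in no minimal prime of `R` there is `e ≥ 1` such
that `λ^e_c` is pure. -/
def IsFPureRegular (R : Type u) [CommRing R] (p : ℕ) [Fact p.Prime] [CharP R p] : Prop :=
  ∀ c : R, (∀ Q ∈ minimalPrimes R, c ∉ Q) → ∃ e : ℕ, 1 ≤ e ∧ IsPure (lam R p e c)

/-- The regular locus of `S`: the primes `P` for which `S_P` is a regular local ring. -/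
def regularLocus (S : Type u) [CommRing S] : Set (PrimeSpectrum S) :=
  {P | IsRegularLocalRing (Localization.AtPrime P.asIdeal)}

/-- `S` is catenary: any two saturated chains of primes with the same first and the same last
member have the same length. -/
def IsCatenaryRing (S : Type u) [CommRing S] : Prop :=
  ∀ s t : RelSeries {x : PrimeSpectrum S × PrimeSpectrum S | x.1 ⋖ x.2},
    s.head = t.head → s.last = t.last → s.length = t.length

/-- The local ring `A` has geometrically regular formal fibres: for every prime `Q` of `A` and
every finite extension `L` of the residue field of `Q`, the base change to `L` of the fibre over `Q`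
of the completion of `A` is a regular ring. -/
def HasGeomRegularFormalFibres (A : Type u) [CommRing A] [IsLocalRing A] : Prop :=
  ∀ (Q : Ideal A) [Q.IsPrime] (L : Type u) [Field L] [Algebra Q.ResidueField L],
    FiniteDimensional Q.ResidueField L →
    IsRegularRing (L ⊗[Q.ResidueField] (Q.ResidueField ⊗[A] AdicCompletion (maximalIdeal A) A))

/-- `R` is excellent (Grothendieck): it is Noetherian and universally catenary, the formal fibres
of its localizations at primes are geometrically regular, and the regular locus of every finitely
generated `R`-algebra is open. -/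
structure IsExcellentRing (R : Type u) [CommRing R] : Prop where
  noetherian : IsNoetherianRing R
  universallyCatenary : ∀ (S : Type u) [CommRing S] [Algebra R S], Algebra.FiniteType R S →
    IsCatenaryRing S
  formalFibres : ∀ (P : Ideal R) [P.IsPrime],
    HasGeomRegularFormalFibres (Localization.AtPrime P)
  regularLocusOpen : ∀ (S : Type u) [CommRing S] [Algebra R S], Algebra.FiniteType R S →
    IsOpen (regularLocus S)

end Pool.Agent.P8H57.FPR
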