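import Pool.Agent.P8H57.FPR.Local

set_option autoImplicit false

/-!
# Purity of `1 ↦ F^e_* c` over a regular local ring, second part
-/

universe u v

namespace Pool.Agent.P8H57.FPR

open IsLocalRing Pool.Agent.W418.LU2 TensorProduct

section loc

variable {A : Type u} [CommRing A] [IsRegularLocalRing A] (p : ℕ) [Fact p.Prime] [CharP A p]
  (e : ℕ)

theorem frob_smul_top_le (c : A)
    (hc : FPush.of A p e c ∈ (maximalIdeal A • ⊤ : Submodule A (FPush A p e))) :
    c ∈ maximalIdeal A ^ p ^ e := by
  have key : ∀ t ∈ (maximalIdeal A • ⊤ : Submodule A (FPush A p e)),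
      (FPush.of A p e).symm t ∈ maximalIdeal A ^ p ^ e := by
    intro t ht
    induction ht using Submodule.smul_induction_on' with
    | smul r hr n _ =>
      have h1 : (FPush.of A p e).symm (r • n) = r ^ p ^ e * (FPush.of A p e).symm n := rfl
      rw [h1]
      exact Ideal.mul_mem_right _ _ (Ideal.pow_mem_pow hr _)
    | add y _ z _ hy hz =>
      rw [map_add]
      exact Ideal.add_mem _ hy hz
  have h := key _ hc
  rwa [AddEquiv.symm_apply_apply] at h

/-- functionals with values in `A / m ^ t` which do not vanish at `c` -/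
theorem exists_functional (c : A)
    (hc : FPush.of A p e c ∉ (maximalIdeal A • ⊤ : Submodule A (FPush A p e))) (t : ℕ)
    (ht : 1 ≤ t) : ∃ (φ : FPush A p e →ₗ[A] A ⧸ maximalIdeal A ^ t) (a : A), IsUnit a ∧
      φ (FPush.of A p e c) = Ideal.Quotient.mk _ a := by
  classical
  obtain ⟨d, x, hx, hd⟩ : ∃ (d : ℕ) (x : Fin d → A), Ideal.span (Set.range x) = maximalIdeal A ∧
      ringKrullDim A = (d : WithBot ℕ∞) := by
    have h0 : Ind (B := A) (ι := Fin 0) (fun i => i.elim0) :=
      ⟨fun i => i.elim0, fun _ _ i => i.elim0⟩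
    obtain ⟨m, w, hw, hdim⟩ := h0.extend
    refine ⟨m, w, ?_, ?_⟩
    · rw [← hw]
      congr 1
      ext y
      constructor
      · rintro ⟨i, rfl⟩
        exact ⟨Sum.inr i, rfl⟩
      · rintro ⟨i | i, rfl⟩
        · exact i.elim0
        · exact ⟨i, rfl⟩
    · rw [hdim]
      simp
  have hi : Ind x := ind_of_span hx (by rw [hd, Fintype.card_fin])
  obtain ⟨J, w, hs, hj⟩ := exists_gens (A := A) (FPush A p e)
  let K : Submodule A (FPush A p e) := maximalIdeal A ^ t • ⊤
  let Θ : (J →₀ A) →ₗ[A] FPush A p e ⧸ K := K.mkQ ∘ₗ Finsupp.linearCombination A w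
  have hΘ : Function.Surjective Θ := by
    rw [← LinearMap.range_eq_top]
    simp only [Θ]
    rw [LinearMap.range_comp, eq_top_iff]
    intro y _
    obtain ⟨s, rfl⟩ := Submodule.Quotient.mk_surjective _ y
    have h1 : s ∈ LinearMap.range (Finsupp.linearCombination A w) ⊔ maximalIdeal A ^ t • ⊤ := by
      rw [surj_pow p e hs t]; trivial
    obtain ⟨r, hr, k, hk, rfl⟩ := Submodule.mem_sup.1 h1
    refine ⟨r, hr, ?_⟩
    rw [Submodule.mkQ_apply, Submodule.Quotient.eq]
    have : r - (r + k) = -k := by abel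
    rw [this]
    exact Submodule.neg_mem _ hk
  obtain ⟨f, hf⟩ := hΘ (Submodule.Quotient.mk (FPush.of A p e c))
  have hf2 : FPush.of A p e c - Finsupp.linearCombination A w f ∈ K :=
    (Submodule.Quotient.eq _).1 hf.symm
  obtain ⟨j₀, hj₀⟩ : ∃ j, f j ∉ maximalIdeal A := by
    by_contra hcon
    push Not at hcon
    apply hc
    have h1 : Finsupp.linearCombination A w f ∈
        (maximalIdeal A • ⊤ : Submodule A (FPush A p e)) := by
      rw [Finsupp.linearCombination_apply, Finsupp.sum]
      exact Submodule.sum_mem _ fun j _ => Submodule.smul_mem_smul (hcon j) trivial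
    have h2 : K ≤ maximalIdeal A • ⊤ := by
      apply Submodule.smul_mono_left
      calc maximalIdeal A ^ t ≤ maximalIdeal A ^ 1 := Ideal.pow_le_pow_right ht
        _ = maximalIdeal A := pow_one _
    have h3 : FPush.of A p e c = (FPush.of A p e c - Finsupp.linearCombination A w f) +
        Finsupp.linearCombination A w f := by abel
    rw [h3]
    exact Submodule.add_mem _ (h2 hf2) h1
  let χ : (J →₀ A) →ₗ[A] A ⧸ maximalIdeal A ^ t :=
    (Submodule.mkQ (maximalIdeal A ^ t)) ∘ₗ Finsupp.lapply j₀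
  have hχ : LinearMap.ker Θ ≤ LinearMap.ker χ := by
    intro g hg
    have h1 : Finsupp.linearCombination A w g ∈ K := by
      have : Θ g = 0 := hg
      exact (Submodule.Quotient.mk_eq_zero _).1 this
    have h2 := inj_pow p e x hx hi hj t g h1 t le_rfl j₀
    change Submodule.mkQ (maximalIdeal A ^ t) (g j₀) = 0
    rw [Submodule.mkQ_apply, Submodule.Quotient.mk_eq_zero]
    exact h2
  let E := LinearMap.quotKerEquivOfSurjective Θ hΘ
  refine ⟨(LinearMap.ker Θ).liftQ χ hχ ∘ₗ E.symm.toLinearMap ∘ₗ K.mkQ, f j₀, ?_, ?_⟩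
  · by_contra h
    exact hj₀ ((mem_maximalIdeal _).2 h)
  · have h1 : E.symm (Submodule.Quotient.mk (FPush.of A p e c)) = Submodule.Quotient.mk f := by
      rw [LinearEquiv.symm_apply_eq, ← hf]
      rfl
    change (LinearMap.ker Θ).liftQ χ hχ (E.symm (Submodule.Quotient.mk (FPush.of A p e c))) = _
    rw [h1]
    rfl

/-- **Local purity.** -/
theorem local_pure (c : A)
    (hc : FPush.of A p e c ∉ (maximalIdeal A • ⊤ : Submodule A (FPush A p e)))
    (P : Type v) [AddCommGroup P] [Module A P] (z : P)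
    (hz : FPush.of A p e c ⊗ₜ[A] z = 0) : z = 0 := by
  classical
  -- reduction to a finitely generated module
  have h1 : (LinearMap.rTensor (FPush A p e) (Submodule.span A {z}).subtype)
      ((⟨z, Submodule.mem_span_singleton_self z⟩ : Submodule.span A {z}) ⊗ₜ[A] FPush.of A p e c)
        = 0 := by
    rw [LinearMap.rTensor_tmul]
    have h2 := congrArg (TensorProduct.comm A (FPush A p e) P) hz
    rw [TensorProduct.comm_tmul, map_zero] at h2
    exact h2
  obtain ⟨Q, hQ, hQf, h3⟩ := TensorProduct.eq_zero_of_fg_of_subtype_eq_zero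
    (Submodule.fg_span_singleton z) h1
  rw [LinearMap.rTensor_tmul] at h3
  have hQfin : Module.Finite A Q := Module.Finite.iff_fg.2 hQf
  let z' : Q := Submodule.inclusion hQ ⟨z, Submodule.mem_span_singleton_self z⟩
  have h4 : z' ⊗ₜ[A] FPush.of A p e c = 0 := h3
  have h5 : z' ∈ (⨅ i : ℕ, maximalIdeal A ^ i • ⊤ : Submodule A Q) := by
    rw [Submodule.mem_iInf]
    intro t
    have h6 : z' ∈ (maximalIdeal A ^ (t + 1) • ⊤ : Submodule A Q) := by
      obtain ⟨φ, a, ha, hφ⟩ := exists_functional p e c hc (t + 1) (by omega)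
      have h7 := congrArg (LinearMap.lTensor Q φ) h4
      rw [LinearMap.lTensor_tmul, map_zero, hφ] at h7
      have h8 := congrArg (TensorProduct.comm A Q (A ⧸ maximalIdeal A ^ (t + 1))) h7
      rw [TensorProduct.comm_tmul, map_zero] at h8
      have h9 := congrArg (TensorProduct.quotTensorEquivQuotSMul Q (maximalIdeal A ^ (t + 1))) h8
      rw [TensorProduct.quotTensorEquivQuotSMul_mk_tmul, map_zero,
        Submodule.Quotient.mk_eq_zero] at h9
      obtain ⟨b, hb⟩ := ha.exists_left_inv
      have h10 : z' = b • a • z' := by rw [smul_smul, hb, one_smul]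
      rw [h10]
      exact Submodule.smul_mem _ _ h9
    exact Submodule.smul_mono_left (Ideal.pow_le_pow_right (Nat.le_succ t)) h6
  rw [Ideal.iInf_pow_smul_eq_bot_of_isLocalRing _ (maximalIdeal.isMaximal A).ne_top,
    Submodule.mem_bot] at h5
  exact congrArg Subtype.val h5

end loc

end Pool.Agent.P8H57.FPR
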