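import Pool.Agent.P8H57.FPR.Order
import Pool.Agent.P8H57.FPR.Pure

set_option autoImplicit false

/-!
# The order of an element is bounded on the spectrum; F-pure regularity
-/

universe u v

namespace Pool.Agent.P8H57.FPR

open IsLocalRing Pool.Agent.W418.LU2 TensorProduct

section nbhd

variable {R : Type u} [CommRing R] (P : Ideal R) [hP : P.IsPrime]

/-- generators near a point -/
theorem exists_mul_mem (hfg : P.FG) (I : Ideal R)
    (h : P.map (algebraMap R (Localization.AtPrime P)) ≤
      I.map (algebraMap R (Localization.AtPrime P))) :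
    ∃ s, s ∉ P ∧ ∀ y ∈ P, s * y ∈ I := by
  classical
  obtain ⟨T, hT⟩ := hfg
  have h1 : ∀ T' : Finset R, (∀ y ∈ T', y ∈ P) → ∃ s, s ∉ P ∧ ∀ y ∈ T', s * y ∈ I := by
    intro T'
    induction T' using Finset.induction_on with
    | empty =>
      intro _
      exact ⟨1, fun h1 => hP.ne_top ((Ideal.eq_top_iff_one _).2 h1), fun y hy => by simp at hy⟩
    | insert a T' _ ih =>
      intro hT'
      obtain ⟨s, hs, hs'⟩ := ih fun y hy => hT' y (Finset.mem_insert_of_mem hy)
      have h2 := h (Ideal.mem_map_of_mem _ (hT' a (Finset.mem_insert_self _ _)))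
      rw [IsLocalization.mem_map_algebraMap_iff P.primeCompl] at h2
      obtain ⟨⟨b, t⟩, hbt⟩ := h2
      rw [← map_mul, IsLocalization.eq_iff_exists P.primeCompl] at hbt
      obtain ⟨u, hu⟩ := hbt
      refine ⟨s * (u * t), fun h3 => ?_, ?_⟩
      · rcases hP.mem_or_mem h3 with h4 | h4
        · exact hs h4
        · exact (u * t).2 h4
      · intro y hy
        rcases Finset.mem_insert.1 hy with rfl | hy
        · have h3 : s * (u * t) * y = s * (u * (y * t)) := by ring
          rw [h3, hu]
          exact Ideal.mul_mem_left _ _ (Ideal.mul_mem_left _ _ b.2)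
        · have h3 : s * (u * t) * y = (u * t) * (s * y) := by ring
          rw [h3]
          exact Ideal.mul_mem_left _ _ (hs' y hy)
  obtain ⟨s, hs, hs'⟩ := h1 T fun y hy => by rw [← hT]; exact Ideal.subset_span hy
  refine ⟨s, hs, fun y hy => ?_⟩
  rw [← hT] at hy
  induction hy using Submodule.span_induction with
  | mem y hy => exact hs' y hy
  | zero => rw [mul_zero]; exact Ideal.zero_mem _
  | add y z _ _ hy hz => rw [mul_add]; exact Ideal.add_mem _ hy hz
  | smul r y _ hy => rw [smul_eq_mul, mul_left_comm]; exact Ideal.mul_mem_left _ _ hy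

variable [IsNoetherianRing R]

theorem exists_nbhd (hreg : ∀ (Q : Ideal R) [Q.IsPrime], IsRegularLocalRing (Localization.AtPrime Q))
    (g : R) (hgP : g ∉ P)
    (hg : ∀ (Q' : Ideal (R ⧸ P)) [Q'.IsPrime], Ideal.Quotient.mk P g ∉ Q' →
      IsRegularLocalRing (Localization.AtPrime Q'))
    (c : R) (hc : algebraMap R (Localization.AtPrime P) c ≠ 0) :
    ∃ s, s ∉ P ∧ ∃ N : ℕ, ∀ (Q : Ideal R) [Q.IsPrime], P ≤ Q → s ∉ Q →
      algebraMap R (Localization.AtPrime Q) c ∉ maximalIdeal (Localization.AtPrime Q) ^ N := by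
  classical
  have hregP := hreg P
  let φ := algebraMap R (Localization.AtPrime P)
  -- parameters of `R_P`
  obtain ⟨d, w, hw, hdim⟩ : ∃ (d : ℕ) (w : Fin d → Localization.AtPrime P),
      Ideal.span (Set.range w) = maximalIdeal (Localization.AtPrime P) ∧
      ringKrullDim (Localization.AtPrime P) = (d : WithBot ℕ∞) := by
    have h0 : Ind (B := Localization.AtPrime P) (ι := Fin 0) (fun i => i.elim0) :=
      ⟨fun i => i.elim0, fun _ _ i => i.elim0⟩
    obtain ⟨m, w, hw, hdim⟩ := h0.extend
    refine ⟨m, w, ?_, ?_⟩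
    · rw [← hw]
      congr 1
      ext y
      constructor
      · rintro ⟨i, rfl⟩
        exact ⟨Sum.inr i, rfl⟩
      · rintro ⟨i | i, rfl⟩
        · exact i.elim0
        · exact ⟨i, rfl⟩
    · rw [hdim]
      simp
  have hex : ∀ i, ∃ a ∈ P, ∃ s : P.primeCompl, φ a = w i * φ s := by
    intro i
    obtain ⟨⟨a, s⟩, h1⟩ := IsLocalization.surj P.primeCompl (w i)
    refine ⟨a, ?_, s, h1.symm⟩
    have h2 : w i ∈ maximalIdeal (Localization.AtPrime P) := by
      rw [← hw]; exact Ideal.subset_span ⟨i, rfl⟩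
    rw [← IsLocalization.AtPrime.to_map_mem_maximal_iff (Localization.AtPrime P) P, ← h1]
    exact Ideal.mul_mem_right _ _ h2
  choose x hxP t hxt using hex
  have hxm : Ideal.span (Set.range fun i => φ (x i)) = maximalIdeal (Localization.AtPrime P) := by
    rw [← hw]
    apply le_antisymm
    · rw [Ideal.span_le]
      rintro _ ⟨i, rfl⟩
      change φ (x i) ∈ _
      rw [hxt]
      exact Ideal.mul_mem_right _ _ (Ideal.subset_span ⟨i, rfl⟩)
    · rw [Ideal.span_le]
      rintro _ ⟨i, rfl⟩
      have hu : IsUnit (φ (t i)) := IsLocalization.map_units _ (t i)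
      have h1 : φ (t i) * w i ∈ Ideal.span (Set.range fun i => φ (x i)) := by
        rw [mul_comm, ← hxt]
        exact Ideal.subset_span ⟨i, rfl⟩
      exact (Ideal.unit_mul_mem_iff_mem _ hu).1 h1
  have hd : ((d : ℕ) : ℕ∞) ≤ P.height := by
    have h1 := IsLocalization.AtPrime.ringKrullDim_eq_height P (Localization.AtPrime P)
    rw [hdim] at h1
    have h2 : ((d : ℕ) : ℕ∞) = P.height := by exact_mod_cast h1
    exact h2.le
  -- the order at `P`
  have hex2 : ∃ n, φ c ∉ maximalIdeal (Localization.AtPrime P) ^ n := by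
    by_contra hcon
    push Not at hcon
    apply hc
    have h1 : φ c ∈ (⨅ i : ℕ, maximalIdeal (Localization.AtPrime P) ^ i : Ideal _) := by
      rw [Submodule.mem_iInf]
      exact hcon
    rw [Ideal.iInf_pow_eq_bot_of_isLocalRing _
      (maximalIdeal.isMaximal (Localization.AtPrime P)).ne_top] at h1
    exact h1
  obtain ⟨n, hn1, hn2⟩ : ∃ n, φ c ∈ maximalIdeal (Localization.AtPrime P) ^ n ∧
      φ c ∉ maximalIdeal (Localization.AtPrime P) ^ (n + 1) := by
    have h1 := Nat.find_spec hex2
    have h2 : Nat.find hex2 ≠ 0 := by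
      intro h
      rw [h, pow_zero, Ideal.one_eq_top] at h1
      exact h1 trivial
    obtain ⟨n, hn⟩ := Nat.exists_eq_succ_of_ne_zero h2
    refine ⟨n, ?_, ?_⟩
    · by_contra h3
      have := Nat.find_min' hex2 h3
      omega
    · rw [hn] at h1
      exact h1
  obtain ⟨a, ha⟩ := In_repr (fun i => φ (x i)) (Dg (Fin d) n) (Dg_finite (Fin d) n) (φ c) (by
    rw [← span_pow_eq, hxm]; exact hn1)
  obtain ⟨α₀, hα₀, haα⟩ : ∃ α ∈ (Dg_finite (Fin d) n).toFinset,
      a α ∉ maximalIdeal (Localization.AtPrime P) := by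
    by_contra hcon
    push Not at hcon
    apply hn2
    rw [ha, pow_succ']
    refine Ideal.sum_mem _ fun α hα => Ideal.mul_mem_mul (hcon α hα) ?_
    rw [← hxm, span_pow_eq]
    exact mo_mem _ _ ((Dg_finite (Fin d) n).mem_toFinset.1 hα)
  -- denominators
  obtain ⟨t₁, ht₁⟩ := IsLocalization.exist_integer_multiples_of_finset P.primeCompl
    ((Dg_finite (Fin d) n).toFinset.image a)
  have hb : ∀ α, ∃ b : R, α ∈ (Dg_finite (Fin d) n).toFinset → φ b = φ t₁ * a α := by
    intro α
    by_cases hα : α ∈ (Dg_finite (Fin d) n).toFinset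
    · obtain ⟨b, hb⟩ := ht₁ (a α) (Finset.mem_image_of_mem _ hα)
      refine ⟨b, fun _ => ?_⟩
      rw [hb, Algebra.smul_def]
    · exact ⟨0, fun h => absurd h hα⟩
  choose b hb using hb
  have h1 : φ (t₁ * c) = φ (∑ α ∈ (Dg_finite (Fin d) n).toFinset, b α * mo x α) := by
    rw [map_mul, ha, map_sum, Finset.mul_sum]
    refine Finset.sum_congr rfl fun α hα => ?_
    rw [map_mul, hb α hα, mul_assoc]
    congr 2
    unfold mo
    rw [map_prod]
    exact Finset.prod_congr rfl fun i _ => by rw [map_pow]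
  rw [IsLocalization.eq_iff_exists P.primeCompl] at h1
  obtain ⟨u, hu⟩ := h1
  obtain ⟨s₂, hs₂P, hs₂⟩ := exists_mul_mem P (IsNoetherian.noetherian P) (Ideal.span (Set.range x))
    (by
      rw [Ideal.map_span, ← Set.range_comp]
      change _ ≤ Ideal.span (Set.range fun i => φ (x i))
      rw [hxm, Localization.AtPrime.map_eq_maximalIdeal])
  have hβ : u * b α₀ ∉ P := by
    intro h2
    rcases hP.mem_or_mem h2 with h3 | h3
    · exact u.2 h3
    · have h4 : φ (b α₀) ∈ maximalIdeal (Localization.AtPrime P) :=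
        (IsLocalization.AtPrime.to_map_mem_maximal_iff (Localization.AtPrime P) P _).2 h3
      rw [hb α₀ hα₀] at h4
      exact haα ((Ideal.unit_mul_mem_iff_mem _ (IsLocalization.map_units _ t₁)).1 h4)
  refine ⟨(u * b α₀) * (s₂ * g), ?_, n + 1, ?_⟩
  · intro h2
    rcases hP.mem_or_mem h2 with h3 | h3
    · exact hβ h3
    · rcases hP.mem_or_mem h3 with h4 | h4
      · exact hs₂P h4
      · exact hgP h4
  · intro Q hQ hPQ hsQ
    have hQ'p : (Q.map (Ideal.Quotient.mk P)).IsPrime :=
      Ideal.map_isPrime_of_surjective Ideal.Quotient.mk_surjective (by rwa [Ideal.mk_ker])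
    have hQ' : Q = (Q.map (Ideal.Quotient.mk P)).comap (Ideal.Quotient.mk P) := by
      rw [Ideal.comap_map_of_surjective _ Ideal.Quotient.mk_surjective, ← RingHom.ker_eq_comap_bot,
        Ideal.mk_ker, sup_eq_left.2 hPQ]
    have hgQ : Ideal.Quotient.mk P g ∉ Q.map (Ideal.Quotient.mk P) := by
      intro h2
      apply hsQ
      have h3 : g ∈ Q := by rw [hQ']; exact h2
      exact Ideal.mul_mem_left _ _ (Ideal.mul_mem_left _ _ h3)
    refine not_mem_pow P Q (Q.map (Ideal.Quotient.mk P)) hQ' (hreg Q) (hg _ hgQ) x hxP hd s₂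
      ?_ hs₂ n (fun α => u * b α) α₀ ((Dg_finite (Fin d) n).mem_toFinset.1 hα₀) ?_ (u * t₁) c ?_
    · intro h2
      exact hsQ (Ideal.mul_mem_left _ _ (Ideal.mul_mem_right _ _ h2))
    · intro h2
      exact hsQ (Ideal.mul_mem_right _ _ h2)
    · rw [mul_assoc, hu, Finset.mul_sum]
      exact Finset.sum_congr rfl fun α _ => by rw [mul_assoc]

end nbhd

/-- **The order of an element is bounded.** -/
theorem exists_bound {R : Type u} [CommRing R] [IsNoetherianRing R]
    (hreg : ∀ (Q : Ideal R) [Q.IsPrime], IsRegularLocalRing (Localization.AtPrime Q))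
    (hJ : ∀ (P : Ideal R) [P.IsPrime], ∃ g, g ∉ P ∧ ∀ (Q' : Ideal (R ⧸ P)) [Q'.IsPrime],
      Ideal.Quotient.mk P g ∉ Q' → IsRegularLocalRing (Localization.AtPrime Q'))
    (c : R) (hc : ∀ (P : Ideal R) [P.IsPrime], algebraMap R (Localization.AtPrime P) c ≠ 0)
    (I : Ideal R) : ∃ N : ℕ, ∀ (Q : Ideal R) [Q.IsPrime], I ≤ Q →
      algebraMap R (Localization.AtPrime Q) c ∉ maximalIdeal (Localization.AtPrime Q) ^ N := by
  classical
  induction I using WellFoundedGT.induction with
  | ind I ih =>
  by_cases hI : I = ⊤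
  · refine ⟨0, fun Q hQ hle => ?_⟩
    rw [hI] at hle
    exact absurd (top_le_iff.1 hle) hQ.ne_top
  by_cases hP : I.IsPrime
  · obtain ⟨g, hg, hg'⟩ := hJ I
    obtain ⟨s, hs, N, hN⟩ := exists_nbhd I hreg g hg hg' c (hc I)
    obtain ⟨M, hM⟩ := ih (I ⊔ Ideal.span {s}) (by
      refine lt_of_le_of_ne le_sup_left fun h => hs ?_
      rw [h]
      exact Ideal.mem_sup_right (Ideal.mem_span_singleton_self s))
    refine ⟨max N M, fun Q _ hle => ?_⟩
    by_cases hsQ : s ∈ Q
    · intro h
      refine hM Q (sup_le hle ((Ideal.span_singleton_le_iff_mem _).2 hsQ)) ?_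
      exact Ideal.pow_le_pow_right (le_max_right _ _) h
    · intro h
      exact hN Q hle hsQ (Ideal.pow_le_pow_right (le_max_left _ _) h)
  · obtain ⟨a, ha, b, hb, hab⟩ : ∃ a, a ∉ I ∧ ∃ b, b ∉ I ∧ a * b ∈ I := by
      by_contra hcon
      push Not at hcon
      apply hP
      refine ⟨hI, fun {a b} hab => ?_⟩
      by_cases ha : a ∈ I
      · exact Or.inl ha
      · by_cases hb : b ∈ I
        · exact Or.inr hb
        · exact absurd hab (hcon a ha b hb)
    obtain ⟨N, hN⟩ := ih (I ⊔ Ideal.span {a}) (by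
      refine lt_of_le_of_ne le_sup_left fun h => ha ?_
      rw [h]
      exact Ideal.mem_sup_right (Ideal.mem_span_singleton_self a))
    obtain ⟨M, hM⟩ := ih (I ⊔ Ideal.span {b}) (by
      refine lt_of_le_of_ne le_sup_left fun h => hb ?_
      rw [h]
      exact Ideal.mem_sup_right (Ideal.mem_span_singleton_self b))
    refine ⟨max N M, fun Q hQ hle h => ?_⟩
    rcases hQ.mem_or_mem (hle hab) with h1 | h1
    · exact hN Q (sup_le hle ((Ideal.span_singleton_le_iff_mem _).2 h1))
        (Ideal.pow_le_pow_right (le_max_left _ _) h)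
    · exact hM Q (sup_le hle ((Ideal.span_singleton_le_iff_mem _).2 h1))
        (Ideal.pow_le_pow_right (le_max_right _ _) h)

section pure

variable {R : Type u} [CommRing R] (p : ℕ) [Fact p.Prime] [CharP R p] (e : ℕ)

/-- From the localizations to the ring. -/
theorem isPure_of_local
    (hreg : ∀ (Q : Ideal R) [Q.IsPrime], IsRegularLocalRing (Localization.AtPrime Q)) (c : R)
    (hc : ∀ (Q : Ideal R) [Q.IsPrime], algebraMap R (Localization.AtPrime Q) c ∉
      maximalIdeal (Localization.AtPrime Q) ^ p ^ e) :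
    IsPure (lam R p e c) := by
  classical
  intro P _ _
  rw [injective_iff_map_eq_zero]
  intro y hy
  -- `y = 1 ⊗ z`
  obtain ⟨z, rfl⟩ : ∃ z : P, y = (1 : R) ⊗ₜ[R] z := by
    refine ⟨TensorProduct.lid R P y, ?_⟩
    apply (TensorProduct.lid R P).injective
    rw [TensorProduct.lid_tmul, one_smul]
  rw [LinearMap.rTensor_tmul] at hy
  have hlam : lam R p e c 1 = FPush.of R p e c := by
    change FPush.of R p e (c * 1 ^ p ^ e) = _
    rw [one_pow, mul_one]
  rw [hlam] at hy
  suffices hz : z = 0 by rw [hz, tmul_zero]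
  refine Module.eq_zero_of_localization_maximal (fun (Q : Ideal R) [Q.IsMaximal] =>
    LocalizedModule Q.primeCompl P) (fun (Q : Ideal R) [Q.IsMaximal] =>
    LocalizedModule.mkLinearMap Q.primeCompl P) z ?_
  intro Q hQ
  have hQp := hQ.isPrime
  have hregQ := hreg Q
  have hchar : CharP (Localization.AtPrime Q) p := by
    rw [CharP.charP_iff_prime_eq_zero Fact.out, ← map_natCast (algebraMap R _), CharP.cast_eq_zero,
      map_zero]
  let φ := algebraMap R (Localization.AtPrime Q)
  let f : FPush R p e →+ P →+ (FPush (Localization.AtPrime Q) p e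
      ⊗[Localization.AtPrime Q] LocalizedModule Q.primeCompl P) :=
    AddMonoidHom.mk' (fun s =>
      AddMonoidHom.mk' (fun m => FPush.of (Localization.AtPrime Q) p e
        (φ ((FPush.of R p e).symm s)) ⊗ₜ[Localization.AtPrime Q]
          LocalizedModule.mkLinearMap Q.primeCompl P m)
        (fun a b => by rw [map_add, tmul_add]))
      (fun a b => by
        ext m
        change FPush.of (Localization.AtPrime Q) p e (φ ((FPush.of R p e).symm (a + b)))
          ⊗ₜ[Localization.AtPrime Q] LocalizedModule.mkLinearMap Q.primeCompl P m = _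
        rw [map_add, map_add, map_add, add_tmul]
        rfl)
  have hf : ∀ (r : R) (s : FPush R p e) (m : P), f (r • s) m = f s (r • m) := by
    intro r s m
    change FPush.of (Localization.AtPrime Q) p e (φ (r ^ p ^ e * (FPush.of R p e).symm s))
        ⊗ₜ[Localization.AtPrime Q] LocalizedModule.mkLinearMap Q.primeCompl P m =
      FPush.of (Localization.AtPrime Q) p e (φ ((FPush.of R p e).symm s))
        ⊗ₜ[Localization.AtPrime Q] LocalizedModule.mkLinearMap Q.primeCompl P (r • m)
    rw [map_mul, map_pow, ← FPush.smul_of, map_smul, ← algebraMap_smul (Localization.AtPrime Q) r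
      (LocalizedModule.mkLinearMap Q.primeCompl P m), tmul_smul, smul_tmul']
  have h1 := congrArg (TensorProduct.liftAddHom f hf) hy
  rw [TensorProduct.liftAddHom_tmul, map_zero] at h1
  have h2 : FPush.of (Localization.AtPrime Q) p e (φ c) ⊗ₜ[Localization.AtPrime Q]
      LocalizedModule.mkLinearMap Q.primeCompl P z = 0 := h1
  refine local_pure p e (φ c) (fun h3 => hc Q (frob_smul_top_le p e _ h3)) _ _ h2

end pure

end Pool.Agent.P8H57.FPR
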