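import Pool.Agent.P8H57.FPR.Mono
import Pool.Agent.P8H57.FPR.Defs

set_option autoImplicit false

/-!
# Purity of `1 ↦ F^e_* c` over a regular local ring
-/

universe u v

namespace Pool.Agent.P8H57.FPR

open IsLocalRing Pool.Agent.W418.LU2 TensorProduct

section span

variable {A : Type u} [CommRing A] {ι : Type v} [Fintype ι]

/-- elements of a monomial ideal as combinations of monomials -/
theorem In_repr (x : ι → A) (N : Set (ι → ℕ)) (hN : N.Finite) (a : A) (ha : a ∈ In x N) :
    ∃ g : (ι → ℕ) → A, a = ∑ n ∈ hN.toFinset, g n * mo x n := by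
  classical
  unfold In at ha
  induction ha using Submodule.span_induction with
  | mem y hy =>
    obtain ⟨n, hn, rfl⟩ := hy
    refine ⟨Pi.single n 1, ?_⟩
    rw [Finset.sum_eq_single n]
    · rw [Pi.single_eq_same, one_mul]
    · intro m _ hm
      rw [Pi.single_eq_of_ne hm, zero_mul]
    · intro h
      exact absurd (hN.mem_toFinset.2 hn) h
  | zero => exact ⟨0, by simp⟩
  | add y z _ _ hy hz =>
    obtain ⟨g, rfl⟩ := hy
    obtain ⟨h, rfl⟩ := hz
    exact ⟨g + h, by simp only [Pi.add_apply, add_mul, Finset.sum_add_distrib]⟩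
  | smul r y _ hy =>
    obtain ⟨g, rfl⟩ := hy
    exact ⟨fun n => r * g n, by
      rw [smul_eq_mul, Finset.mul_sum]
      exact Finset.sum_congr rfl fun n _ => by rw [mul_assoc]⟩

theorem mo_mem (x : ι → A) (N : Set (ι → ℕ)) {n : ι → ℕ} (hn : n ∈ N) : mo x n ∈ In x N :=
  Ideal.subset_span ⟨n, hn, rfl⟩

theorem mo_pow (x : ι → A) (q : ℕ) (m : ι → ℕ) : mo (fun j => x j ^ q) m = mo x m ^ q := by
  unfold mo
  rw [← Finset.prod_pow]
  exact Finset.prod_congr rfl fun i _ => by rw [← pow_mul, ← pow_mul, mul_comm]

variable (p : ℕ) [Fact p.Prime] [CharP A p] (e : ℕ)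

theorem pow_mem_In (x : ι → A) (N : Set (ι → ℕ)) (a : A) (ha : a ∈ In x N) :
    a ^ p ^ e ∈ In (fun j => x j ^ p ^ e) N := by
  unfold In at ha
  induction ha using Submodule.span_induction with
  | mem y hy =>
    obtain ⟨n, hn, rfl⟩ := hy
    rw [← mo_pow]
    exact mo_mem _ _ hn
  | zero =>
    rw [zero_pow (pow_ne_zero e (Nat.Prime.ne_zero Fact.out))]
    exact Ideal.zero_mem _
  | add y z _ _ hy hz =>
    rw [add_pow_char_pow]
    exact Ideal.add_mem _ hy hz
  | smul r y _ hy =>
    rw [smul_eq_mul, mul_pow]
    exact Ideal.mul_mem_left _ _ hy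

/-- Frobenius powers of monomial ideals -/
theorem mem_In_of_smul_top (x : ι → A) (N : Set (ι → ℕ)) (s : A)
    (hs : FPush.of A p e s ∈ (In x N • ⊤ : Submodule A (FPush A p e))) :
    s ∈ In (fun j => x j ^ p ^ e) N := by
  have key : ∀ t ∈ (In x N • ⊤ : Submodule A (FPush A p e)),
      (FPush.of A p e).symm t ∈ In (fun j => x j ^ p ^ e) N := by
    intro t ht
    induction ht using Submodule.smul_induction_on' with
    | smul r hr n _ =>
      have h1 : (FPush.of A p e).symm (r • n) = r ^ p ^ e * (FPush.of A p e).symm n := rfl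
      rw [h1]
      exact Ideal.mul_mem_right _ _ (pow_mem_In p e x N r hr)
    | add y _ z _ hy hz =>
      rw [map_add]
      exact Ideal.add_mem _ hy hz
  have h := key _ hs
  rwa [AddEquiv.symm_apply_apply] at h

omit [Fintype ι] in
theorem smul_top_of_mem (x : ι → A) (s : A)
    (hs : s ∈ Ideal.span (Set.range fun j => x j ^ p ^ e)) :
    FPush.of A p e s ∈ (Ideal.span (Set.range x) • ⊤ : Submodule A (FPush A p e)) := by
  induction hs using Submodule.span_induction with
  | mem y hy =>
    obtain ⟨j, rfl⟩ := hy
    have h1 : FPush.of A p e (x j ^ p ^ e) = x j • FPush.of A p e 1 := by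
      rw [FPush.smul_of, mul_one]
    rw [h1]
    exact Submodule.smul_mem_smul (Ideal.subset_span ⟨j, rfl⟩) trivial
  | zero => rw [map_zero]; exact Submodule.zero_mem _
  | add y z _ _ hy hz => rw [map_add]; exact Submodule.add_mem _ hy hz
  | smul r y _ hy =>
    have key : ∀ t ∈ (Ideal.span (Set.range x) • ⊤ : Submodule A (FPush A p e)),
        FPush.of A p e (r * (FPush.of A p e).symm t) ∈
          (Ideal.span (Set.range x) • ⊤ : Submodule A (FPush A p e)) := by
      intro t ht
      induction ht using Submodule.smul_induction_on' with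
      | smul r' hr' n _ =>
        have h1 : FPush.of A p e (r * (FPush.of A p e).symm (r' • n)) =
            r' • FPush.of A p e (r * (FPush.of A p e).symm n) := by
          change FPush.of A p e (r * (r' ^ p ^ e * (FPush.of A p e).symm n)) =
            FPush.of A p e (r' ^ p ^ e * (r * (FPush.of A p e).symm n))
          congr 1
          ring
        rw [h1]
        exact Submodule.smul_mem_smul hr' trivial
      | add y _ z _ hy hz =>
        rw [map_add, mul_add, map_add]
        exact Submodule.add_mem _ hy hz
    have h := key _ hy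
    rwa [AddEquiv.symm_apply_apply] at h

end span

section basis

variable {A : Type u} [CommRing A] [IsLocalRing A] (F : Type v) [AddCommGroup F] [Module A F]

/-- the vector space `F / m F` -/
@[instance_reducible]
noncomputable def resMod : Module (ResidueField A) (F ⧸ (maximalIdeal A • ⊤ : Submodule A F)) :=
  inferInstanceAs (Module (A ⧸ maximalIdeal A) (F ⧸ (maximalIdeal A • ⊤ : Submodule A F)))

/-- elements which are a basis modulo the maximal ideal -/
theorem exists_gens : ∃ (J : Type v) (w : J → F),
    (LinearMap.range (Finsupp.linearCombination A w) ⊔ maximalIdeal A • ⊤ = ⊤) ∧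
    ∀ f : J →₀ A, Finsupp.linearCombination A w f ∈
      (maximalIdeal A • ⊤ : Submodule A F) → ∀ j, f j ∈ maximalIdeal A := by
  classical
  let hmod := resMod (A := A) F
  have hsm : ∀ (a : A) (v : F ⧸ (maximalIdeal A • ⊤ : Submodule A F)),
      (residue A a) • v = a • v := by
    intro a v
    obtain ⟨s, rfl⟩ := Submodule.Quotient.mk_surjective _ v
    rfl
  let b := Module.Basis.ofVectorSpace (ResidueField A) (F ⧸ (maximalIdeal A • ⊤ : Submodule A F))
  choose w hw using fun j => Submodule.Quotient.mk_surjective _ (b j)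
  have hmk : ∀ f : Module.Basis.ofVectorSpaceIndex (ResidueField A)
      (F ⧸ (maximalIdeal A • ⊤ : Submodule A F)) →₀ A,
      (Submodule.Quotient.mk (Finsupp.linearCombination A w f) :
        F ⧸ (maximalIdeal A • ⊤ : Submodule A F)) =
        ∑ j ∈ f.support, residue A (f j) • b j := by
    intro f
    rw [Finsupp.linearCombination_apply, Finsupp.sum]
    change Submodule.mkQ _ _ = _
    rw [map_sum]
    refine Finset.sum_congr rfl fun j _ => ?_
    rw [map_smul, hsm]
    congr 1
    exact hw j
  refine ⟨_, w, ?_, ?_⟩
  · rw [eq_top_iff]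
    intro s _
    have h1 := b.linearCombination_repr (Submodule.Quotient.mk s)
    obtain ⟨f, hf⟩ := Finsupp.mapRange_surjective (residue A) (map_zero _) residue_surjective
        (b.repr (Submodule.Quotient.mk s))
    have h2 : (Submodule.Quotient.mk (Finsupp.linearCombination A w f) :
        F ⧸ (maximalIdeal A • ⊤ : Submodule A F)) = Submodule.Quotient.mk s := by
      rw [hmk, ← h1, ← hf, Finsupp.linearCombination_apply, Finsupp.sum_mapRange_index]
      · rfl
      · intro j; rw [zero_smul]
    have h3 : s - Finsupp.linearCombination A w f ∈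
        (maximalIdeal A • ⊤ : Submodule A F) := (Submodule.Quotient.eq _).1 h2.symm
    have h4 : s = Finsupp.linearCombination A w f + (s - Finsupp.linearCombination A w f) := by
      abel
    rw [h4]
    exact Submodule.add_mem_sup ⟨f, rfl⟩ h3
  · intro f hf j
    have h1 := (Submodule.Quotient.mk_eq_zero _).2 hf
    rw [hmk] at h1
    by_cases hj : j ∈ f.support
    · have h2 := linearIndependent_iff'.1 b.linearIndependent f.support
        (fun j => residue A (f j)) h1 j hj
      exact (residue_eq_zero_iff _).1 h2
    · rw [Finsupp.notMem_support_iff.1 hj]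
      exact Ideal.zero_mem _

end basis

section loc

variable {A : Type u} [CommRing A] [IsRegularLocalRing A] (p : ℕ) [Fact p.Prime] [CharP A p]
  (e : ℕ)

variable {d : ℕ} (x : Fin d → A) (hx : Ideal.span (Set.range x) = maximalIdeal A) (hi : Ind x)

section gens

variable {J : Type u} {w : J → FPush A p e}
  (hs : LinearMap.range (Finsupp.linearCombination A w) ⊔ maximalIdeal A • ⊤ = ⊤)
  (hj : ∀ f : J →₀ A, Finsupp.linearCombination A w f ∈
      (maximalIdeal A • ⊤ : Submodule A (FPush A p e)) → ∀ j, f j ∈ maximalIdeal A)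

include hs in
theorem surj_pow (t : ℕ) :
    LinearMap.range (Finsupp.linearCombination A w) ⊔ maximalIdeal A ^ t • ⊤ = ⊤ := by
  induction t with
  | zero => rw [pow_zero, Ideal.one_eq_top, Submodule.top_smul, sup_top_eq]
  | succ t ih =>
    rw [eq_top_iff]
    nth_rewrite 1 [← ih]
    refine sup_le le_sup_left ?_
    nth_rewrite 1 [← hs]
    rw [Submodule.smul_sup]
    refine sup_le (Submodule.smul_le_right.trans le_sup_left) ?_
    rw [← Submodule.mul_smul, ← pow_succ]
    exact le_sup_right

include hj hx hi in
theorem inj_pow (t : ℕ) (f : J →₀ A) (hf : Finsupp.linearCombination A w f ∈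
    (maximalIdeal A ^ t • ⊤ : Submodule A (FPush A p e))) (i : ℕ) (hit : i ≤ t) :
    ∀ j, f j ∈ maximalIdeal A ^ i := by
  classical
  induction i with
  | zero => intro j; rw [pow_zero, Ideal.one_eq_top]; trivial
  | succ i ih =>
    have ih' := ih (by omega)
    -- coefficients
    have h1 : ∀ j, ∃ g : (Fin d → ℕ) → A,
        f j = ∑ n ∈ (Dg_finite (Fin d) i).toFinset, g n * mo x n := by
      intro j
      apply In_repr
      rw [← span_pow_eq, hx]
      exact ih' j
    choose g hg using h1
    -- the coefficient elements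
    let W : (Fin d → ℕ) → J →₀ A := fun n => ∑ j ∈ f.support, Finsupp.single j (g j n)
    have hWj : ∀ n, ∀ j ∈ f.support, W n j = g j n := by
      intro n j hj'
      simp only [W, Finsupp.finsetSum_apply]
      rw [Finset.sum_eq_single j]
      · rw [Finsupp.single_eq_same]
      · intro l _ hl
        rw [Finsupp.single_apply, if_neg hl]
      · intro h; exact absurd hj' h
    let v : (Fin d → ℕ) → A := fun n =>
      (FPush.of A p e).symm (Finsupp.linearCombination A w (W n))
    have hv : ∀ n, v n = ∑ j ∈ f.support, g j n ^ p ^ e * (FPush.of A p e).symm (w j) := by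
      intro n
      simp only [v, W, map_sum, Finsupp.linearCombination_single]
      rfl
    have hsum : (FPush.of A p e).symm (Finsupp.linearCombination A w f) =
        ∑ n ∈ (Dg_finite (Fin d) i).toFinset, mo (fun j => x j ^ p ^ e) n * v n := by
      have h2 : (FPush.of A p e).symm (Finsupp.linearCombination A w f) =
          ∑ j ∈ f.support, f j ^ p ^ e * (FPush.of A p e).symm (w j) := by
        rw [Finsupp.linearCombination_apply, Finsupp.sum, map_sum]
        rfl
      rw [h2]
      have h3 : ∀ j ∈ f.support, f j ^ p ^ e * (FPush.of A p e).symm (w j) =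
          ∑ n ∈ (Dg_finite (Fin d) i).toFinset, mo (fun j => x j ^ p ^ e) n *
            (g j n ^ p ^ e * (FPush.of A p e).symm (w j)) := by
        intro j _
        rw [hg j, sum_pow_char_pow, Finset.sum_mul]
        refine Finset.sum_congr rfl fun n _ => ?_
        rw [mo_pow, mul_pow]
        ring
      rw [Finset.sum_congr rfl h3, Finset.sum_comm]
      refine Finset.sum_congr rfl fun n _ => ?_
      rw [hv, Finset.mul_sum]
    have hmem : (FPush.of A p e).symm (Finsupp.linearCombination A w f) ∈
        In (fun j => x j ^ p ^ e) (Dg (Fin d) (i + 1)) := by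
      apply mem_In_of_smul_top
      rw [← span_pow_eq, hx, AddEquiv.apply_symm_apply]
      exact Submodule.smul_mono_left (Ideal.pow_le_pow_right hit) hf
    have hP := prm hi
    have hvm : ∀ n ∈ (Dg_finite (Fin d) i).toFinset,
        v n ∈ Ideal.span (Set.range fun j => x j ^ p ^ e) := by
      intro n hn
      have hn' : n ∈ Dg (Fin d) i := (Dg_finite (Fin d) i).mem_toFinset.1 hn
      refine colon_pow x hP (p ^ e) n
        (Dg (Fin d) (i + 1) ∪ (Dg (Fin d) i \ {n}))
        ((Dg_finite (Fin d) (i + 1)).union ((Dg_finite (Fin d) i).subset Set.sdiff_subset)) ?_ _ ?_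
      · rintro m (hm | ⟨hm, hne⟩) hle
        · have h2 : ∑ l, m l ≤ ∑ l, n l := Finset.sum_le_sum fun l _ => hle l
          have h3 : ∑ l, m l = i + 1 := hm
          have h4 : ∑ l, n l = i := hn'
          omega
        · apply hne
          have h3 : ∑ l, m l = i := hm
          have h4 : ∑ l, n l = i := hn'
          have h5 := (Finset.sum_eq_sum_iff_of_le (fun l _ => hle l)).1 (h3.trans h4.symm)
          exact funext fun l => h5 l (Finset.mem_univ l)
      · have h2 : mo (fun j => x j ^ p ^ e) n * v n =
            (FPush.of A p e).symm (Finsupp.linearCombination A w f) -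
            ∑ m ∈ (Dg_finite (Fin d) i).toFinset.erase n, mo (fun j => x j ^ p ^ e) m * v m := by
          rw [hsum, ← Finset.add_sum_erase _ _ hn, add_sub_cancel_right]
        rw [h2]
        apply Ideal.sub_mem
        · exact In_mono _ Set.subset_union_left hmem
        · refine Ideal.sum_mem _ fun m hm => Ideal.mul_mem_right _ _ ?_
          have hm' := Finset.mem_erase.1 hm
          exact mo_mem _ _ (Or.inr ⟨(Dg_finite (Fin d) i).mem_toFinset.1 hm'.2, hm'.1⟩)
    have hgm : ∀ n ∈ (Dg_finite (Fin d) i).toFinset, ∀ j ∈ f.support,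
        g j n ∈ maximalIdeal A := by
      intro n hn j hj'
      rw [← hWj n j hj']
      refine hj (W n) ?_ j
      have h2 := smul_top_of_mem p e x (v n) (hvm n hn)
      rw [hx, AddEquiv.apply_symm_apply] at h2
      exact h2
    intro j
    by_cases hj' : j ∈ f.support
    · rw [hg j, pow_succ']
      refine Ideal.sum_mem _ fun n hn => Ideal.mul_mem_mul (hgm n hn j hj') ?_
      rw [← hx, span_pow_eq]
      exact mo_mem _ _ ((Dg_finite (Fin d) i).mem_toFinset.1 hn)
    · rw [Finsupp.notMem_support_iff.1 hj']
      exact Ideal.zero_mem _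

end gens

end loc

end Pool.Agent.P8H57.FPR
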