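import Pool.Agent.P8H57.FPR.Local

set_option autoImplicit false

/-!
# The order of an element at the points of a regular ring, local part
-/

universe u v

namespace Pool.Agent.P8H57.FPR

open IsLocalRing Pool.Agent.W418.LU2

theorem dim_add_height_le {B : Type u} [CommRing B] (P : Ideal B) [hP : P.IsPrime] :
    ringKrullDim (B ⧸ P) + (P.height : WithBot ℕ∞) ≤ ringKrullDim B := by
  let 𝔭 : PrimeSpectrum B := ⟨P, hP⟩
  have : Nonempty (PrimeSpectrum B) := ⟨𝔭⟩
  have h1 : PrimeSpectrum.zeroLocus (R := B) P = Set.Ici 𝔭 := by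
    ext Q
    rw [PrimeSpectrum.mem_zeroLocus, Set.mem_Ici]
    rfl
  have h2 : ringKrullDim (B ⧸ P) = (Order.coheight 𝔭 : WithBot ℕ∞) := by
    rw [ringKrullDim_quotient, h1, Order.coheight_eq_krullDim_Ici]
  have h3 : P.height = Order.height 𝔭 := PrimeSpectrum.height_eq_orderHeight 𝔭
  rw [h2, h3, ringKrullDim, Order.krullDim_eq_iSup_height_add_coheight_of_nonempty, add_comm]
  have h4 : Order.height 𝔭 + Order.coheight 𝔭 ≤
      ⨆ a : PrimeSpectrum B, Order.height a + Order.coheight a :=
    le_iSup (fun a : PrimeSpectrum B => Order.height a + Order.coheight a) 𝔭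
  exact_mod_cast h4

section theta

variable {R : Type u} [CommRing R] (P Q : Ideal R) [hP : P.IsPrime] [hQ : Q.IsPrime]
  (Q' : Ideal (R ⧸ P)) [hQ'p : Q'.IsPrime] (hQ' : Q = Q'.comap (Ideal.Quotient.mk P))

/-- `R_Q → (R / P)_Q` -/
noncomputable def theta : Localization.AtPrime Q →+* Localization.AtPrime Q' :=
  Localization.localRingHom Q Q' (Ideal.Quotient.mk P) hQ'

include hQ' in
omit hP in
theorem theta_surj : Function.Surjective (theta P Q Q' hQ') := by
  intro y
  obtain ⟨⟨a, s⟩, rfl⟩ := IsLocalization.mk'_surjective Q'.primeCompl y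
  obtain ⟨a', rfl⟩ := Ideal.Quotient.mk_surjective a
  obtain ⟨s', hs'⟩ := Ideal.Quotient.mk_surjective (s : R ⧸ P)
  have hs'Q : s' ∈ Q.primeCompl := by
    intro h
    apply s.2
    rw [← hs']
    rw [hQ'] at h
    exact h
  refine ⟨IsLocalization.mk' _ a' ⟨s', hs'Q⟩, ?_⟩
  unfold theta
  rw [Localization.localRingHom_mk']
  congr 1
  exact Subtype.ext hs'

include hQ' in
theorem theta_ker : RingHom.ker (theta P Q Q' hQ') =
    P.map (algebraMap R (Localization.AtPrime Q)) := by
  have hPQ : P ≤ Q := by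
    intro y hy
    rw [hQ', Ideal.mem_comap, Ideal.Quotient.eq_zero_iff_mem.2 hy]
    exact Ideal.zero_mem _
  apply le_antisymm
  · intro y hy
    obtain ⟨⟨a, s⟩, rfl⟩ := IsLocalization.mk'_surjective Q.primeCompl y
    rw [RingHom.mem_ker] at hy
    unfold theta at hy
    rw [Localization.localRingHom_mk', IsLocalization.mk'_eq_zero_iff] at hy
    obtain ⟨t, ht⟩ := hy
    obtain ⟨t', ht'⟩ := Ideal.Quotient.mk_surjective (t : R ⧸ P)
    rw [← ht', ← map_mul, Ideal.Quotient.eq_zero_iff_mem] at ht
    have ht'Q : t' ∉ Q := by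
      intro h
      rw [hQ', Ideal.mem_comap, ht'] at h
      exact t.2 h
    have ha : a ∈ P := (hP.mem_or_mem ht).resolve_left fun h => ht'Q (hPQ h)
    change IsLocalization.mk' (Localization.AtPrime Q) a s ∈ _
    rw [IsLocalization.mk'_eq_mul_mk'_one]
    exact Ideal.mul_mem_right _ _ (Ideal.mem_map_of_mem _ ha)
  · rw [Ideal.map_le_iff_le_comap]
    intro y hy
    rw [Ideal.mem_comap, RingHom.mem_ker]
    unfold theta
    rw [Localization.localRingHom_to_map, Ideal.Quotient.eq_zero_iff_mem.2 hy, map_zero]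

end theta

section locstep

variable {R : Type u} [CommRing R] (P Q : Ideal R) [hP : P.IsPrime]
  [hQ : Q.IsPrime] (Q' : Ideal (R ⧸ P)) [hQ'p : Q'.IsPrime]
  (hQ' : Q = Q'.comap (Ideal.Quotient.mk P))
  (hreg : IsRegularLocalRing (Localization.AtPrime Q))
  (hreg' : IsRegularLocalRing (Localization.AtPrime Q'))

include hQ' hreg hreg' in
/-- Generators of a prime `P` near `Q` are part of a regular system of parameters of `R_Q`. -/
theorem exists_system {d : ℕ} (x : Fin d → R) (hd : ((d : ℕ) : ℕ∞) ≤ P.height)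
    (hx : P.map (algebraMap R (Localization.AtPrime Q)) =
      Ideal.span (Set.range fun i => algebraMap R (Localization.AtPrime Q) (x i))) :
    ∃ (m : ℕ) (y : Fin m → Localization.AtPrime Q),
      Ideal.span (Set.range (Sum.elim (fun i => algebraMap R (Localization.AtPrime Q) (x i)) y)) =
        maximalIdeal (Localization.AtPrime Q) ∧
      Ind (Sum.elim (fun i => algebraMap R (Localization.AtPrime Q) (x i)) y) := by
  have hPQ : P ≤ Q := by
    intro y hy
    rw [hQ', Ideal.mem_comap, Ideal.Quotient.eq_zero_iff_mem.2 hy]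
    exact Ideal.zero_mem _
  -- parameters of the quotient
  obtain ⟨m, z, hz, hm⟩ : ∃ (m : ℕ) (z : Fin m → Localization.AtPrime Q'),
      Ideal.span (Set.range z) = maximalIdeal (Localization.AtPrime Q') ∧
      ringKrullDim (Localization.AtPrime Q') = (m : WithBot ℕ∞) := by
    have h0 : Ind (B := Localization.AtPrime Q') (ι := Fin 0) (fun i => i.elim0) :=
      ⟨fun i => i.elim0, fun _ _ i => i.elim0⟩
    obtain ⟨m, w, hw, hdim⟩ := h0.extend
    refine ⟨m, w, ?_, ?_⟩
    · rw [← hw]
      congr 1
      ext y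
      constructor
      · rintro ⟨i, rfl⟩
        exact ⟨Sum.inr i, rfl⟩
      · rintro ⟨i | i, rfl⟩
        · exact i.elim0
        · exact ⟨i, rfl⟩
    · rw [hdim]
      simp
  have hsurj := theta_surj P Q Q' hQ'
  have hker := theta_ker P Q Q' hQ'
  choose y hy using fun i => hsurj (z i)
  have hspan : Ideal.span (Set.range (Sum.elim
      (fun i => algebraMap R (Localization.AtPrime Q) (x i)) y)) =
      maximalIdeal (Localization.AtPrime Q) := by
    apply le_antisymm
    · rw [Ideal.span_le]
      rintro _ ⟨i | i, rfl⟩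
      · have h1 : algebraMap R (Localization.AtPrime Q) (x i) ∈
            P.map (algebraMap R (Localization.AtPrime Q)) := by
          rw [hx]
          exact Ideal.subset_span ⟨i, rfl⟩
        have h2 : P.map (algebraMap R (Localization.AtPrime Q)) ≤
            maximalIdeal (Localization.AtPrime Q) := by
          rw [← Localization.AtPrime.map_eq_maximalIdeal]
          exact Ideal.map_mono hPQ
        exact h2 h1
      · have h1 : z i ∈ maximalIdeal (Localization.AtPrime Q') := by
          rw [← hz]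
          exact Ideal.subset_span ⟨i, rfl⟩
        have h2 : ¬ IsUnit (theta P Q Q' hQ' (y i)) := by
          rw [hy]
          exact (mem_maximalIdeal _).1 h1
        exact (mem_maximalIdeal _).2 fun h => h2 (h.map _)
    · intro w hw
      have h1 : theta P Q Q' hQ' w ∈ maximalIdeal (Localization.AtPrime Q') :=
        mem_max_of_surj _ hsurj hw
      rw [← hz, Ideal.mem_span_range_iff_exists_fun] at h1
      obtain ⟨c, hc⟩ := h1
      choose c' hc' using fun i => hsurj (c i)
      have h2 : w - ∑ i, c' i * y i ∈ RingHom.ker (theta P Q Q' hQ') := by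
        rw [RingHom.mem_ker, map_sub, map_sum]
        simp only [map_mul, hc', hy]
        rw [hc, sub_self]
      rw [hker, hx] at h2
      have h3 : w = (w - ∑ i, c' i * y i) + ∑ i, c' i * y i := by ring
      rw [h3]
      apply Ideal.add_mem
      · refine (Ideal.span_mono ?_ : Ideal.span _ ≤ Ideal.span _) h2
        rintro _ ⟨i, rfl⟩
        exact ⟨Sum.inl i, rfl⟩
      · exact Ideal.sum_mem _ fun i _ => Ideal.mul_mem_left _ _
          (Ideal.subset_span ⟨Sum.inr i, rfl⟩)
  refine ⟨m, y, hspan, ind_of_span hspan ?_⟩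
  rw [Fintype.card_sum, Fintype.card_fin, Fintype.card_fin]
  -- the dimension
  have hdisj : Disjoint (Q.primeCompl : Set R) (P : Set R) := by
    rw [Set.disjoint_left]
    intro w hw hwP
    exact hw (hPQ hwP)
  have hprime : (P.map (algebraMap R (Localization.AtPrime Q))).IsPrime :=
    IsLocalization.isPrime_of_isPrime_disjoint Q.primeCompl _ P hP hdisj
  have hht : (P.map (algebraMap R (Localization.AtPrime Q))).height = P.height := by
    have h1 := IsLocalization.height_under Q.primeCompl
      (P.map (algebraMap R (Localization.AtPrime Q)))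
    rw [IsLocalization.under_map_of_isPrime_disjoint Q.primeCompl _ hP hdisj] at h1
    exact h1.symm
  have h1 := dim_add_height_le (P.map (algebraMap R (Localization.AtPrime Q)))
  rw [hht] at h1
  have h2 : ringKrullDim (Localization.AtPrime Q ⧸ P.map (algebraMap R (Localization.AtPrime Q))) =
      ringKrullDim (Localization.AtPrime Q') := by
    rw [← hker]
    exact ringKrullDim_eq_of_ringEquiv (RingHom.quotientKerEquivOfSurjective hsurj)
  rw [h2, hm] at h1
  refine le_trans ?_ h1
  rw [add_comm]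
  push_cast
  have h3 : ((d : ℕ) : WithBot ℕ∞) ≤ (P.height : WithBot ℕ∞) := by exact_mod_cast hd
  exact add_le_add le_rfl h3

include hQ' hreg hreg' in
/-- the order of `c` at `Q` is at most `n` -/
theorem not_mem_pow {d : ℕ} (x : Fin d → R) (hxP : ∀ i, x i ∈ P)
    (hd : ((d : ℕ) : ℕ∞) ≤ P.height) (s₂ : R)
    (hs₂Q : s₂ ∉ Q) (hs₂ : ∀ y ∈ P, s₂ * y ∈ Ideal.span (Set.range x)) (n : ℕ)
    (β : (Fin d → ℕ) → R) (α₀ : Fin d → ℕ) (hα₀ : α₀ ∈ Dg (Fin d) n) (hβ : β α₀ ∉ Q) (s₁ c : R)
    (hc : s₁ * c = ∑ α ∈ (Dg_finite (Fin d) n).toFinset, β α * mo x α) :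
    algebraMap R (Localization.AtPrime Q) c ∉ maximalIdeal (Localization.AtPrime Q) ^ (n + 1) := by
  classical
  intro hcm
  let φ := algebraMap R (Localization.AtPrime Q)
  have hx : P.map φ = Ideal.span (Set.range fun i => φ (x i)) := by
    apply le_antisymm
    · rw [Ideal.map_le_iff_le_comap]
      intro y hy
      rw [Ideal.mem_comap]
      have h1 := Ideal.mem_map_of_mem φ (hs₂ y hy)
      rw [Ideal.map_span, ← Set.range_comp] at h1
      have hu : IsUnit (φ s₂) := IsLocalization.map_units (Localization.AtPrime Q)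
        (⟨s₂, hs₂Q⟩ : Q.primeCompl)
      rw [map_mul] at h1
      exact (Ideal.unit_mul_mem_iff_mem _ hu).1 h1
    · rw [Ideal.span_le]
      rintro _ ⟨i, rfl⟩
      exact Ideal.mem_map_of_mem _ (hxP i)
  obtain ⟨m, y, hspan, hind⟩ := exists_system P Q Q' hQ' hreg hreg' x hd hx
  let w : Fin d ⊕ Fin m → Localization.AtPrime Q := Sum.elim (fun i => φ (x i)) y
  let ex : (Fin d → ℕ) → (Fin d ⊕ Fin m → ℕ) := fun α => Sum.elim α 0
  have hex : ∀ α, mo w (ex α) = φ (mo x α) := by
    intro α
    unfold mo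
    rw [Fintype.prod_sum_type, map_prod]
    simp only [w, ex, Sum.elim_inl, Sum.elim_inr, Pi.zero_apply, pow_zero, Finset.prod_const_one,
      mul_one, map_pow]
  have hexd : ∀ α n', α ∈ Dg (Fin d) n' → ex α ∈ Dg (Fin d ⊕ Fin m) n' := by
    intro α n' hα
    have h1 : ∑ i, α i = n' := hα
    change ∑ i, ex α i = n'
    rw [Fintype.sum_sum_type]
    simp only [ex, Sum.elim_inl, Sum.elim_inr, Pi.zero_apply, Finset.sum_const_zero, add_zero]
    exact h1
  have hexi : Function.Injective ex := by
    intro α α' h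
    funext i
    exact congrFun h (Sum.inl i)
  have hP' := prm hind
  have hmem : φ (β α₀) ∈ Ideal.span (Set.range w) := by
    refine colon w hP' _ (ex α₀) rfl
      (Dg (Fin d ⊕ Fin m) (n + 1) ∪ (Dg (Fin d ⊕ Fin m) n \ {ex α₀}))
      ((Dg_finite _ _).union ((Dg_finite _ _).subset Set.sdiff_subset)) ?_ _ ?_
    · rintro k (hk | ⟨hk, hne⟩) hle
      · have h2 : ∑ l, k l ≤ ∑ l, ex α₀ l := Finset.sum_le_sum fun l _ => hle l
        have h3 : ∑ l, k l = n + 1 := hk
        have h4 : ∑ l, ex α₀ l = n := hexd _ _ hα₀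
        omega
      · apply hne
        have h3 : ∑ l, k l = n := hk
        have h4 : ∑ l, ex α₀ l = n := hexd _ _ hα₀
        have h5 := (Finset.sum_eq_sum_iff_of_le (fun l _ => hle l)).1 (h3.trans h4.symm)
        exact funext fun l => h5 l (Finset.mem_univ l)
    · have h1 : mo w (ex α₀) * φ (β α₀) = φ (s₁ * c) -
          ∑ α ∈ (Dg_finite (Fin d) n).toFinset.erase α₀, φ (β α) * mo w (ex α) := by
        rw [hc, map_sum, ← Finset.add_sum_erase _ _ ((Dg_finite (Fin d) n).mem_toFinset.2 hα₀)]
        simp only [map_mul, hex]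
        ring
      rw [h1]
      apply Ideal.sub_mem
      · rw [map_mul]
        apply Ideal.mul_mem_left
        have h2 : maximalIdeal (Localization.AtPrime Q) ^ (n + 1) =
            In w (Dg (Fin d ⊕ Fin m) (n + 1)) := by
          rw [← span_pow_eq, hspan]
        rw [h2] at hcm
        exact In_mono _ Set.subset_union_left hcm
      · refine Ideal.sum_mem _ fun α hα => Ideal.mul_mem_left _ _ ?_
        have hα' := Finset.mem_erase.1 hα
        exact mo_mem _ _ (Or.inr ⟨hexd _ _ ((Dg_finite (Fin d) n).mem_toFinset.1 hα'.2),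
          fun h => hα'.1 (hexi h)⟩)
  rw [hspan] at hmem
  exact hβ ((IsLocalization.AtPrime.to_map_mem_maximal_iff (Localization.AtPrime Q) Q _).1 hmem)

end locstep

end Pool.Agent.P8H57.FPR
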